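import Pool.Agent.helper65.GD.Spec

set_option autoImplicit false

namespace Pool.Agent.GD

open Finset Metric Filter Topology

theorem QFM_mean (s : ℂ) (N : ℕ) (w : Fin N → ℝ) (x : Fin N → ℂ) (G : ℕ → ℂ) (k : ℕ)
    (hA : Atomic N w x) (hR : Rec s (mom w x) G) :
    s * ∑ l, (w l : ℂ) * pol G k (x l) = (s + 2 * k) * G k := by
  have h1 : ∑ l, (w l : ℂ) * pol G k (x l) =
      G k + 2 * ∑ m ∈ range k, mom w x (k - m) * G m := by
    have h2 : ∀ l, (w l : ℂ) * pol G k (x l) =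
        (w l : ℂ) * G k + 2 * ∑ m ∈ range k, (w l : ℂ) * x l ^ (k - m) * G m := by
      intro l
      unfold pol
      rw [mul_add, mul_left_comm, mul_sum]
      congr 2
      apply sum_congr rfl
      intro m _
      ring
    rw [sum_congr rfl fun l _ => h2 l, sum_add_distrib, ← sum_mul, ← mul_sum, sum_comm]
    have h3 : ∑ l, (w l : ℂ) = 1 := by
      have h4 := hA.2.1
      exact_mod_cast h4
    rw [h3, one_mul]
    congr 2
    apply sum_congr rfl
    intro m _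
    unfold mom
    rw [sum_mul]
  rw [h1]
  have h5 := hR.2 k
  linear_combination -2 * h5

theorem QFM_step (G : ℕ → ℂ) (k : ℕ) (y : ℂ) :
    pol G (k + 1) y = G (k + 1) + y * (pol G k y + G k) := by
  unfold pol
  rw [sum_range_succ, Nat.add_sub_cancel_left, pow_one]
  have h1 : ∑ m ∈ range k, y ^ (k + 1 - m) * G m = y * ∑ m ∈ range k, y ^ (k - m) * G m := by
    rw [mul_sum]
    apply sum_congr rfl
    intro m hm
    have h2 : k + 1 - m = (k - m) + 1 := by
      have := mem_range.1 hm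
      omega
    rw [h2, pow_succ]
    ring
  rw [h1]
  ring

theorem QFM_sq (G : ℕ → ℂ) (k : ℕ) (y : ℂ) (hy : ‖y‖ = 1) :
    ‖pol G (k + 1) y‖ ^ 2 = ‖pol G k y‖ ^ 2 + ‖G k‖ ^ 2 - ‖G (k + 1)‖ ^ 2 +
      2 * ((starRingEnd ℂ) (G (k + 1)) * pol G (k + 1) y).re +
      2 * ((starRingEnd ℂ) (G k) * pol G k y).re := by
  have h1 : ‖pol G (k + 1) y - G (k + 1)‖ ^ 2 = ‖pol G k y + G k‖ ^ 2 := by
    rw [QFM_step, add_sub_cancel_left, norm_mul, hy, one_mul]
  have h2 : ∀ u v : ℂ, ‖u + v‖ ^ 2 = ‖u‖ ^ 2 + ‖v‖ ^ 2 + 2 * ((starRingEnd ℂ) v * u).re := by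
    intro u v
    rw [← Complex.normSq_eq_norm_sq, ← Complex.normSq_eq_norm_sq, ← Complex.normSq_eq_norm_sq]
    simp only [Complex.normSq_apply, Complex.add_re, Complex.add_im, Complex.mul_re,
      Complex.conj_re, Complex.conj_im]
    ring
  have h3 : ∀ u v : ℂ, ‖u - v‖ ^ 2 = ‖u‖ ^ 2 + ‖v‖ ^ 2 - 2 * ((starRingEnd ℂ) v * u).re := by
    intro u v
    rw [← Complex.normSq_eq_norm_sq, ← Complex.normSq_eq_norm_sq, ← Complex.normSq_eq_norm_sq]
    simp only [Complex.normSq_apply, Complex.sub_re, Complex.sub_im, Complex.mul_re,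
      Complex.conj_re, Complex.conj_im]
    ring
  rw [h2, h3] at h1
  linarith

theorem QFM_re (s : ℝ) (N : ℕ) (w : Fin N → ℝ) (x : Fin N → ℂ) (G : ℕ → ℂ) (k : ℕ)
    (hA : Atomic N w x) (hR : Rec s (mom w x) G) :
    s * ∑ l, w l * ((starRingEnd ℂ) (G k) * pol G k (x l)).re = (s + 2 * k) * ‖G k‖ ^ 2 := by
  have h1 := QFM_mean s N w x G k hA hR
  have h2 : ((starRingEnd ℂ) (G k) * ((s : ℂ) * ∑ l, (w l : ℂ) * pol G k (x l))).re =
      s * ∑ l, w l * ((starRingEnd ℂ) (G k) * pol G k (x l)).re := by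
    have h3 : (starRingEnd ℂ) (G k) * ((s : ℂ) * ∑ l, (w l : ℂ) * pol G k (x l)) =
        (s : ℂ) * ∑ l, (w l : ℂ) * ((starRingEnd ℂ) (G k) * pol G k (x l)) := by
      rw [mul_left_comm, mul_sum]
      congr 1
      apply sum_congr rfl
      intro l _
      ring
    rw [h3, Complex.re_ofReal_mul, Complex.re_sum]
    congr 1
    apply sum_congr rfl
    intro l _
    rw [Complex.re_ofReal_mul]
  rw [← h2, h1]
  have h4 : (starRingEnd ℂ) (G k) * (((s : ℂ) + 2 * k) * G k) =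
      ((s + 2 * k : ℝ) : ℂ) * (G k * (starRingEnd ℂ) (G k)) := by
    push_cast
    ring
  rw [h4, Complex.mul_conj, Complex.re_ofReal_mul, Complex.ofReal_re, Complex.normSq_eq_norm_sq]

theorem QFM : QFM_stmt := by
  intro s N w x G k hA hR
  induction k with
  | zero =>
    simp only [range_zero, sum_empty, pol, mul_zero, add_zero, Nat.cast_zero]
    rw [← sum_mul, hA.2.1, one_mul]
  | succ k ih =>
    have h1 : ∑ l, w l * ‖pol G (k + 1) (x l)‖ ^ 2 =
        ∑ l, w l * ‖pol G k (x l)‖ ^ 2 + (‖G k‖ ^ 2 - ‖G (k + 1)‖ ^ 2) +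
        2 * ∑ l, w l * ((starRingEnd ℂ) (G (k + 1)) * pol G (k + 1) (x l)).re +
        2 * ∑ l, w l * ((starRingEnd ℂ) (G k) * pol G k (x l)).re := by
      have h2 : ∑ l, w l * (‖G k‖ ^ 2 - ‖G (k + 1)‖ ^ 2) = ‖G k‖ ^ 2 - ‖G (k + 1)‖ ^ 2 := by
        rw [← sum_mul, hA.2.1, one_mul]
      rw [← h2, mul_sum, mul_sum, ← sum_add_distrib, ← sum_add_distrib, ← sum_add_distrib]
      apply sum_congr rfl
      intro l _
      rw [QFM_sq G k (x l) (hA.2.2 l)]
      ring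
    have h3 := QFM_re s N w x G k hA hR
    have h4 := QFM_re s N w x G (k + 1) hA hR
    rw [h1, sum_range_succ]
    push_cast at h4 ⊢
    linear_combination ih + 2 * h3 + 2 * h4

end Pool.Agent.GD
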